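import Mathlib
import Pool.Agent.H917R2.BP.Stm

/-!
The trace of the corner (task amptr of project BP).
-/

set_option autoImplicit false

open scoped ComplexOrder InnerProductSpace ComplexConjugate Topology
open Filter

noncomputable section

namespace H19R2.BP

open H759R2.Kad H710R2.DP H917R2.Tr H917R2.BP

section

variable {K K0 : Type} [NormedAddCommGroup K] [InnerProductSpace ℂ K] [CompleteSpace K]
  [NormedAddCommGroup K0] [InnerProductSpace ℂ K0] [CompleteSpace K0]

omit [CompleteSpace K] in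
theorem summ {ι : Type} (ζ : ι → K) (h : Sq ζ) (x : BH K) :
    Summable fun k => ⟪ζ k, x (ζ k)⟫_ℂ := by
  refine Summable.of_norm_bounded (g := fun k => ‖x‖ * ‖ζ k‖ ^ 2) (Summable.mul_left _ h)
    fun k => ?_
  calc ‖⟪ζ k, x (ζ k)⟫_ℂ‖ ≤ ‖ζ k‖ * ‖x (ζ k)‖ := norm_inner_le_norm _ _
    _ ≤ ‖ζ k‖ * (‖x‖ * ‖ζ k‖) := by
        gcongr
        exact x.le_opNorm _
    _ = ‖x‖ * ‖ζ k‖ ^ 2 := by ring

omit [CompleteSpace K] in
theorem vf_sum {ι : Type} (ζ : ι → K) (h : Sq ζ) {n : ℕ} (x : Fin n → BH K) :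
    vf ζ (∑ i, x i) = ∑ i, vf ζ (x i) := by
  unfold vf
  rw [← Summable.tsum_finsetSum (fun i _ => summ ζ h (x i))]
  refine tsum_congr fun k => ?_
  rw [_root_.sum_apply, inner_sum]

theorem vf_star_mul {ι : Type} (ζ : ι → K) (z : BH K) :
    vf ζ (star z * z) = ((∑' k, ‖z (ζ k)‖ ^ 2 : ℝ) : ℂ) := by
  unfold vf
  rw [Complex.ofReal_tsum]
  refine tsum_congr fun k => ?_
  rw [ContinuousLinearMap.mul_apply, ContinuousLinearMap.star_eq_adjoint,
    ContinuousLinearMap.adjoint_inner_right, inner_self_eq_norm_sq_to_K]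
  push_cast
  rfl

/-- the vectors of the corner -/
def zz {n : ℕ} (V : Fin (n + 1) → (K0 →L[ℂ] K)) (ζ : ℕ → K) (e : ℕ ≃ Fin (n + 1) × ℕ) :
    ℕ → K0 := fun k => ContinuousLinearMap.adjoint (V (e k).1) (ζ (e k).2)

theorem sq_zz {n : ℕ} (V : Fin (n + 1) → (K0 →L[ℂ] K)) (ζ : ℕ → K) (e : ℕ ≃ Fin (n + 1) × ℕ)
    (h : Sq ζ) : Sq (fun p : Fin (n + 1) × ℕ => ContinuousLinearMap.adjoint (V p.1) (ζ p.2)) ∧
      Sq (zz V ζ e) := by
  have h1 : Sq (fun p : Fin (n + 1) × ℕ => ContinuousLinearMap.adjoint (V p.1) (ζ p.2)) := by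
    unfold Sq
    rw [summable_prod_of_nonneg (fun p => by positivity)]
    refine ⟨fun i => ?_, (hasSum_fintype _).summable⟩
    refine Summable.of_nonneg_of_le (fun k => by positivity) (fun k => ?_)
      (Summable.mul_left (‖ContinuousLinearMap.adjoint (V i)‖ ^ 2) h)
    rw [← mul_pow]
    exact pow_le_pow_left₀ (norm_nonneg _) ((ContinuousLinearMap.adjoint (V i)).le_opNorm _) 2
  refine ⟨h1, ?_⟩
  unfold Sq at h1 ⊢
  exact (e.summable_iff (f := fun p : Fin (n + 1) × ℕ =>
    ‖ContinuousLinearMap.adjoint (V p.1) (ζ p.2)‖ ^ 2)).2 h1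

theorem vf_zz {n : ℕ} (V : Fin (n + 1) → (K0 →L[ℂ] K)) (ζ : ℕ → K) (e : ℕ ≃ Fin (n + 1) × ℕ)
    (h : Sq ζ) (y : BH K0) :
    vf (zz V ζ e) y = ∑ i, vf ζ (V i ∘L y ∘L ContinuousLinearMap.adjoint (V i)) := by
  have h1 := (sq_zz V ζ e h).1
  have h2 := summ _ h1 y
  have h3 : vf (zz V ζ e) y = ∑' p : Fin (n + 1) × ℕ,
      ⟪ContinuousLinearMap.adjoint (V p.1) (ζ p.2),
        y (ContinuousLinearMap.adjoint (V p.1) (ζ p.2))⟫_ℂ :=
    e.tsum_eq (fun p : Fin (n + 1) × ℕ => ⟪ContinuousLinearMap.adjoint (V p.1) (ζ p.2),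
        y (ContinuousLinearMap.adjoint (V p.1) (ζ p.2))⟫_ℂ)
  rw [h3, h2.tsum_prod, tsum_fintype]
  refine Finset.sum_congr rfl fun i _ => ?_
  unfold vf
  refine tsum_congr fun k => ?_
  rw [ContinuousLinearMap.adjoint_inner_left]
  rfl

end

theorem t_amptr : S_amptr := by
  intro K K0 _ _ _ _ _ _ N N0 n V hA hV ζ hζ
  obtain ⟨e⟩ : Nonempty (ℕ ≃ Fin (n + 1) × ℕ) := nonempty_equiv_of_countable
  have hor : ∀ i, ContinuousLinearMap.adjoint (V i) ∘L V i = 1 := by
    intro i
    rw [hA.orth i i, if_pos rfl]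
  have hor' : ∀ i (v : K0), ContinuousLinearMap.adjoint (V i) (V i v) = v := by
    intro i v
    exact congrArg (fun f : BH K0 => f v) (hor i)
  have hV' : ∀ v : K, ∑ i, V i (ContinuousLinearMap.adjoint (V i) v) = v := by
    intro v
    have := congrArg (fun f : BH K => f v) hV
    simp only [_root_.sum_apply] at this
    exact this
  refine ⟨zz V ζ e, ⟨(sq_zz V ζ e hζ.sq).2, ?_, ?_, ?_⟩, ?_⟩
  · rw [vf_zz V ζ e hζ.sq, ← vf_sum ζ hζ.sq]
    have : (∑ i, V i ∘L (1 : BH K0) ∘L ContinuousLinearMap.adjoint (V i)) = (1 : BH K) := hV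
    rw [this, hζ.one]
  · intro x hx y hy
    rw [vf_zz V ζ e hζ.sq, vf_zz V ζ e hζ.sq]
    refine Finset.sum_congr rfl fun i _ => ?_
    have h1 : ∀ x y : BH K0, V i ∘L (x * y) ∘L ContinuousLinearMap.adjoint (V i) =
        (V i ∘L x ∘L ContinuousLinearMap.adjoint (V i)) *
          (V i ∘L y ∘L ContinuousLinearMap.adjoint (V i)) := by
      intro x y
      ext v
      simp only [ContinuousLinearMap.comp_apply, ContinuousLinearMap.mul_apply, hor']
    rw [h1, h1]
    exact hζ.tr _ (hA.ext x hx i i) _ (hA.ext y hy i i)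
  · intro x hx h0
    rw [vf_star_mul] at h0
    have h1 : ∑' k, ‖x (zz V ζ e k)‖ ^ 2 = 0 := by exact_mod_cast h0
    have hsq := (sq_zz V ζ e hζ.sq).2
    have h2 : Summable fun k => ‖x (zz V ζ e k)‖ ^ 2 := by
      refine Summable.of_nonneg_of_le (fun k => by positivity) (fun k => ?_)
        (Summable.mul_left (‖x‖ ^ 2) hsq)
      rw [← mul_pow]
      exact pow_le_pow_left₀ (norm_nonneg _) (x.le_opNorm _) 2
    have h3 : ∀ k, x (zz V ζ e k) = 0 := by
      intro k
      have h4 : ‖x (zz V ζ e k)‖ ^ 2 ≤ 0 := by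
        rw [← h1]
        exact h2.le_tsum k (fun j _ => by positivity)
      have h5 : ‖x (zz V ζ e k)‖ = 0 := by
        have := norm_nonneg (x (zz V ζ e k))
        nlinarith
      exact norm_eq_zero.1 h5
    have h4 : ∀ i k, x (ContinuousLinearMap.adjoint (V i) (ζ k)) = 0 := by
      intro i k
      have := h3 (e.symm (i, k))
      simpa only [zz, Equiv.apply_symm_apply] using this
    have h5 : V 0 ∘L x ∘L ContinuousLinearMap.adjoint (V 0) = 0 := by
      refine hζ.fa _ (hA.ext x hx 0 0) ?_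
      rw [vf_star_mul]
      have : ∀ k, ‖(V 0 ∘L x ∘L ContinuousLinearMap.adjoint (V 0)) (ζ k)‖ ^ 2 = 0 := by
        intro k
        rw [ContinuousLinearMap.comp_apply, ContinuousLinearMap.comp_apply, h4]
        simp
      rw [tsum_congr this]
      simp
    ext v
    have h6 := congrArg (fun f : BH K => ContinuousLinearMap.adjoint (V 0) (f (V 0 v))) h5
    simp only [ContinuousLinearMap.comp_apply, hor'] at h6
    simpa using h6
  · intro m hm
    have h1 : ∀ i, vf (zz V ζ e) (ContinuousLinearMap.adjoint (V i) ∘L m ∘L V i) =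
        ((n : ℂ) + 1) * vf ζ (m * (V i ∘L ContinuousLinearMap.adjoint (V i))) := by
      intro i
      rw [vf_zz V ζ e hζ.sq]
      have h2 : ∀ j, vf ζ (V j ∘L (ContinuousLinearMap.adjoint (V i) ∘L m ∘L V i) ∘L
          ContinuousLinearMap.adjoint (V j)) =
          vf ζ (m * (V i ∘L ContinuousLinearMap.adjoint (V i))) := by
        intro j
        have w1 : V j ∘L (1 : BH K0) ∘L ContinuousLinearMap.adjoint (V i) ∈ N :=
          hA.ext 1 (one_mem N0) j i
        have w2 : V i ∘L (1 : BH K0) ∘L ContinuousLinearMap.adjoint (V j) ∈ N :=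
          hA.ext 1 (one_mem N0) i j
        have e1 : V j ∘L (ContinuousLinearMap.adjoint (V i) ∘L m ∘L V i) ∘L
            ContinuousLinearMap.adjoint (V j) =
            (V j ∘L (1 : BH K0) ∘L ContinuousLinearMap.adjoint (V i)) *
              (m * (V i ∘L (1 : BH K0) ∘L ContinuousLinearMap.adjoint (V j))) := by
          ext v
          simp only [ContinuousLinearMap.comp_apply, ContinuousLinearMap.mul_apply,
            ContinuousLinearMap.one_apply]
        have e2 : (m * (V i ∘L (1 : BH K0) ∘L ContinuousLinearMap.adjoint (V j))) *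
            (V j ∘L (1 : BH K0) ∘L ContinuousLinearMap.adjoint (V i)) =
            m * (V i ∘L ContinuousLinearMap.adjoint (V i)) := by
          ext v
          simp only [ContinuousLinearMap.comp_apply, ContinuousLinearMap.mul_apply,
            ContinuousLinearMap.one_apply, hor']
        rw [e1, hζ.tr _ w1 _ (mul_mem hm w2), e2]
      rw [Finset.sum_congr rfl fun j _ => h2 j, Finset.sum_const, Finset.card_univ,
        Fintype.card_fin, nsmul_eq_mul]
      push_cast
      rfl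
    rw [Finset.sum_congr rfl fun i _ => h1 i, ← Finset.mul_sum, ← vf_sum ζ hζ.sq,
      ← Finset.mul_sum, hV, mul_one]
    have hn : (n : ℂ) + 1 ≠ 0 := by exact_mod_cast Nat.succ_ne_zero n
    field_simp

end H19R2.BP
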